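import Pool.Agent.Y303.EJ.Stm
import Pool.Agent.Y5.O2

/-!
Project EJ, job EJ-UPA: upper bounds by the clocks.
-/

open Set Filter Topology MeasureTheory Metric

set_option autoImplicit false

namespace Pool.Agent.Y815.EJ

open Pool.Agent.Y5 (Pr Pr_zero Pr_mono incr_le)
open Pool.Agent.Y6.N (ph)
open Pool.Agent.Y303.EJ

section

variable {η : ℝ} {lm L C ℓ : ℕ → ℝ} {B : ℕ → ℕ → ℝ} {T : ℝ} {x R V : ℕ → ℝ → ℝ}

/-- a primitive of a bounded function -/
theorem Pr_le {f : ℝ → ℝ} {T c t : ℝ} (hf : ContinuousOn f (Ico 0 T)) (ht : t ∈ Ico 0 T)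
    (h : ∀ s ∈ Ioo 0 t, f s ≤ c) : Pr f t ≤ c * t := by
  have h1 := incr_le (f := fun s => c * s) (f' := fun _ => c) hf ⟨le_rfl, ht.1.trans_lt ht.2⟩ ht
    ht.1 (by fun_prop) (fun s _ => by
      have h2 := (hasDerivAt_id s).const_mul c
      rw [mul_one] at h2
      exact h2) h
  rw [Pr_zero] at h1
  linarith

theorem cont_LR (h : Ch η lm L C ℓ B T x R V) (i j : ℕ) :
    ContinuousOn (fun s => L i * R j s) (Ico 0 T) := continuousOn_const.mul (h.cR j)

theorem Th_mono (h : Ch η lm L C ℓ B T x R V) (n : ℕ) {a b : ℝ} (ha : 0 ≤ a) (hab : a ≤ b)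
    (hb : b < T) : Th L R n a ≤ Th L R n b := by
  refine Pr_mono (cont_LR h n (n + 1)) ⟨ha, hab.trans_lt hb⟩ ⟨ha.trans hab, hb⟩ hab fun t ht => ?_
  exact mul_nonneg (zero_le_one.trans (h.nm.L1 n)) (h.R0 _ t ⟨ha.trans ht.1.le, ht.2.trans hb⟩)

theorem Ex_zero (n : ℕ) : Ex L R n 0 = 0 := by
  unfold Ex
  exact Finset.sum_eq_zero fun i _ => Pr_zero _

theorem Pr_succ (h : Ch η lm L C ℓ B T x R V) (i : ℕ) (t : ℝ) :
    Pr (fun s => L (i + 1) * R (i + 1) s) t = lm (i + 1) * Th L R i t := by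
  unfold Th Pr
  rw [← intervalIntegral.integral_const_mul]
  congr 1
  funext s
  rw [← h.sq.lm_succ i]
  ring

theorem Pr_zero_le (h : Ch η lm L C ℓ B T x R V) {t : ℝ} (ht : t ∈ Ico 0 T) :
    Pr (fun s => L 0 * R 0 s) t ≤ L 0 * t := by
  refine Pr_le (cont_LR h 0 0) ht fun s hs => ?_
  have h1 := h.R1 s ⟨hs.1.le, hs.2.trans ht.2⟩
  have h2 := h.nm.L1 0
  nlinarith

theorem t_le (h : Ch η lm L C ℓ B T x R V) {t : ℝ} (ht : t ∈ Ico 0 T) (h1 : L 0 * t ≤ 3 * lm 0) :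
    t ≤ 3 * lm 0 := by
  have h2 := h.nm.L1 0
  have h3 := ht.1
  nlinarith

theorem e0_nonneg : 0 ≤ e0 lm := by
  unfold e0
  positivity

theorem e0_le (h : Ch η lm L C ℓ B T x R V) {t : ℝ} (ht : t ∈ Ico 0 T)
    (h1 : L 0 * t ≤ 3 * lm 0) : e0 lm * t ≤ 1 := by
  have h2 := h.nm.e1
  have h3 := t_le h ht h1
  have h4 : 0 ≤ e0 lm := e0_nonneg
  have h5 := h.nm.L1 0
  have h6 : e0 lm * t ≤ e0 lm * (3 * lm 0) := mul_le_mul_of_nonneg_left h3 h4
  have h7 : 0 ≤ e0 lm * L 0 := mul_nonneg h4 (by linarith)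
  have h8 : e0 lm * lm 0 ≤ 1 / 10 ^ 30 := by nlinarith
  norm_num at h8
  nlinarith

/-- the source term -/
theorem src_le (h : Ch η lm L C ℓ B T x R V) (n : ℕ) {t : ℝ} (ht : t ∈ Ico 0 T)
    (h1 : L 0 * t ≤ 3 * lm 0) : (L n * C n + 2 * ph lm (n + 1)) * t ≤
      Q η lm n ^ 3 * Real.exp (-(Real.pi / 2 - dl η n / 1000) * lm n) := by
  have hQ := h.nm.Q1 n
  have hL := h.nm.QL n n (by omega)
  have hlm := h.nm.Qlm n 0 (by omega)
  have hC : C n ≤ Real.exp (-(Real.pi / 2 - dl η n / 1000) * lm n) := by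
    have h2 := h.sq.C_hi n
    rw [← neg_mul] at h2
    exact h2
  have hd0 := h.nm.d0 n
  have hlm1 := h.nm.lm1 n
  have hph : ph lm (n + 1) ≤ Real.exp (-(Real.pi / 2 - dl η n / 1000) * lm n) := by
    refine (h.nm.ph1 n).trans (Real.exp_le_exp.2 ?_)
    have h3 := Real.pi_le_four
    nlinarith
  obtain ⟨E, hE⟩ : ∃ E, E = Real.exp (-(Real.pi / 2 - dl η n / 1000) * lm n) := ⟨_, rfl⟩
  have hE0 : 0 < E := hE ▸ Real.exp_pos _
  rw [← hE] at hC hph ⊢
  obtain ⟨q, hq⟩ : ∃ q, q = Q η lm n := ⟨_, rfl⟩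
  rw [← hq] at hQ hL hlm ⊢
  have ht3 := (t_le h ht h1).trans (mul_le_mul_of_nonneg_left hlm (by norm_num : (0 : ℝ) ≤ 3))
  have hq0 : 9 ≤ q := by
    refine le_trans ?_ hQ
    norm_num
  have h2 : L n * C n ≤ q * E :=
    mul_le_mul hL hC (h.nm.C0 n).le (by linarith)
  have h3 : L n * C n + 2 * ph lm (n + 1) ≤ 3 * (q * E) := by
    have h4 : E ≤ q * E := by nlinarith
    linarith
  calc (L n * C n + 2 * ph lm (n + 1)) * t ≤ (3 * (q * E)) * (3 * q) :=
        mul_le_mul h3 ht3 ht.1 (by positivity)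
    _ = 9 * (q ^ 2 * E) := by ring
    _ ≤ q * (q ^ 2 * E) := mul_le_mul_of_nonneg_right hq0 (by positivity)
    _ = q ^ 3 * E := by ring

theorem upa1 (h : Ch η lm L C ℓ B T x R V) (hG : GROW lm L C T R) {t : ℝ} (ht : t ∈ Ico 0 T)
    (h1 : L 0 * t ≤ 3 * lm 0) :
    R 1 t ≤ Real.exp (L 0 * t - (Real.pi / 2 - dl η 0 / 100) * lm 0) := by
  have h2 := hG 0 0 t le_rfl ht.1 ht.2
  rw [Ex_zero, h.hn 0, zero_add, sub_zero, sub_zero] at h2
  have h3 : Ex L R 1 t ≤ L 0 * t := by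
    unfold Ex
    rw [Finset.sum_range_one]
    exact Pr_zero_le h ht
  have h4 := e0_le h ht h1
  have h5 := src_le h 0 ht h1
  have hlmd := h.nm.lmd 0
  have h6 : Real.exp (Ex L R (0 + 1) t + e0 lm * t) ≤ Real.exp (L 0 * t) * Q η lm 0 := by
    unfold Q
    rw [← Real.exp_add]
    refine Real.exp_le_exp.2 (add_le_add h3 (h4.trans ?_))
    rw [le_div_iff₀ (by positivity)]
    refine le_trans ?_ hlmd
    norm_num
  refine h2.trans ?_
  rw [zero_add] at h6 ⊢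
  have hS : 0 ≤ (L 0 * C 0 + 2 * ph lm 1) * t := by
    refine mul_nonneg (add_nonneg (mul_nonneg (by linarith [h.nm.L1 0]) (h.nm.C0 0).le) ?_) ht.1
    unfold ph
    positivity
  have h7 : 0 ≤ Real.exp (L 0 * t) * Q η lm 0 := by
    unfold Q
    positivity
  refine (mul_le_mul h6 h5 hS h7).trans ?_
  have h8 := h.nm.Qexp 0 4 (-(Real.pi / 2 - dl η 0 / 1000)) (-(Real.pi / 2 - dl η 0 / 100)) (by
    have := h.nm.d0 0
    push_cast
    linarith)
  calc Real.exp (L 0 * t) * Q η lm 0 *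
        (Q η lm 0 ^ 3 * Real.exp (-(Real.pi / 2 - dl η 0 / 1000) * lm 0))
      = Real.exp (L 0 * t) * (Q η lm 0 ^ 4 * Real.exp (-(Real.pi / 2 - dl η 0 / 1000) * lm 0)) := by
        ring
    _ ≤ Real.exp (L 0 * t) * Real.exp (-(Real.pi / 2 - dl η 0 / 100) * lm 0) :=
        mul_le_mul_of_nonneg_left h8 (Real.exp_pos _).le
    _ = Real.exp (L 0 * t - (Real.pi / 2 - dl η 0 / 100) * lm 0) := by
        rw [← Real.exp_add]
        congr 1
        ring

theorem upa2 (h : Ch η lm L C ℓ B T x R V) (hG : GROW lm L C T R) (n : ℕ) {t : ℝ}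
    (ht : t ∈ Ico 0 T) (h1 : L 0 * t ≤ 3 * lm 0) (hold : ∀ i < n, Th L R i t ≤ 2) :
    R (n + 2) t ≤ Real.exp (lm (n + 1) * (Th L R n t - Real.pi / 2 + dl η (n + 1) / 100)) := by
  have h2 := hG (n + 1) 0 t le_rfl ht.1 ht.2
  rw [Ex_zero, h.hn (n + 1), zero_add, sub_zero, sub_zero] at h2
  have hlmd := h.nm.lmd (n + 1)
  have h3 : Ex L R (n + 2) t ≤ lm (n + 1) * Th L R n t + dl η (n + 1) * lm (n + 1) / 10 ^ 6 := by
    unfold Ex
    rw [Finset.sum_range_succ', Finset.sum_range_succ]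
    have h4 := Pr_zero_le h ht
    have h5 : ∑ i ∈ Finset.range n, Pr (fun s => L (i + 1) * R (i + 1) s) t ≤
        ∑ i ∈ Finset.range n, 3 * lm (i + 1) := by
      refine Finset.sum_le_sum fun i hi => ?_
      rw [Pr_succ h]
      have h6 := hold i (Finset.mem_range.1 hi)
      have h7 := h.nm.lm1 (i + 1)
      have h8 : (0 : ℝ) ≤ lm (i + 1) := le_trans (by norm_num) h7
      nlinarith
    rw [← Finset.mul_sum] at h5
    have h6 := h.nm.lmsum n
    rw [Finset.sum_range_succ'] at h6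
    rw [Pr_succ h]
    have h7 : (0 : ℝ) ≤ dl η (n + 1) * lm (n + 1) := le_trans (by norm_num) hlmd
    have h8 : 3 * ∑ i ∈ Finset.range n, lm (i + 1) + 3 * lm 0 ≤
        dl η (n + 1) * lm (n + 1) / 10 ^ 6 := by
      rw [le_div_iff₀ (by positivity)]
      norm_num at h6 ⊢
      nlinarith
    linarith
  have h4 := e0_le h ht h1
  have h5 := src_le h (n + 1) ht h1
  have h6 : Real.exp (Ex L R (n + 1 + 1) t + e0 lm * t) ≤
      Real.exp (lm (n + 1) * Th L R n t) * Q η lm (n + 1) ^ 2 := by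
    unfold Q
    rw [← Real.exp_nat_mul, ← Real.exp_add]
    refine Real.exp_le_exp.2 ?_
    have h7 : (1 : ℝ) ≤ dl η (n + 1) * lm (n + 1) / 10 ^ 6 := by
      rw [le_div_iff₀ (by positivity)]
      refine le_trans ?_ hlmd
      norm_num
    have h8 : Ex L R (n + 1 + 1) t ≤ _ := h3
    push_cast
    linarith
  refine h2.trans ?_
  have hS : 0 ≤ (L (n + 1) * C (n + 1) + 2 * ph lm (n + 1 + 1)) * t := by
    refine mul_nonneg (add_nonneg (mul_nonneg (by linarith [h.nm.L1 (n + 1)])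
      (h.nm.C0 (n + 1)).le) ?_) ht.1
    unfold ph
    positivity
  have h7 : 0 ≤ Real.exp (lm (n + 1) * Th L R n t) * Q η lm (n + 1) ^ 2 := by
    positivity
  refine (mul_le_mul h6 h5 hS h7).trans ?_
  have h8 := h.nm.Qexp (n + 1) 5 (-(Real.pi / 2 - dl η (n + 1) / 1000))
    (-(Real.pi / 2 - dl η (n + 1) / 100)) (by
      have := h.nm.d0 (n + 1)
      push_cast
      linarith)
  calc Real.exp (lm (n + 1) * Th L R n t) * Q η lm (n + 1) ^ 2 *
        (Q η lm (n + 1) ^ 3 *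
          Real.exp (-(Real.pi / 2 - dl η (n + 1) / 1000) * lm (n + 1)))
      = Real.exp (lm (n + 1) * Th L R n t) * (Q η lm (n + 1) ^ 5 *
          Real.exp (-(Real.pi / 2 - dl η (n + 1) / 1000) * lm (n + 1))) := by
        ring
    _ ≤ Real.exp (lm (n + 1) * Th L R n t) *
          Real.exp (-(Real.pi / 2 - dl η (n + 1) / 100) * lm (n + 1)) :=
        mul_le_mul_of_nonneg_left h8 (Real.exp_pos _).le
    _ = Real.exp (lm (n + 1) * (Th L R n t - Real.pi / 2 + dl η (n + 1) / 100)) := by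
        rw [← Real.exp_add]
        congr 1
        ring

/-- the modes of high index at all previous times -/
theorem far (h : Ch η lm L C ℓ B T x R V) (hU : UPA η lm L T R) (n : ℕ) {t : ℝ}
    (ht : t ∈ Ico 0 T) (hH : His η lm L R n t) : ∀ m ≥ n + 2, ∀ s ∈ Icc 0 t,
      R (m + 1) s ≤ Real.exp (-(lm m / 2)) ∧ Th L R m s ≤ Real.exp (-(lm m / 4)) := by
  intro m
  induction m using Nat.strong_induction_on with
  | _ m ih =>
  intro hm
  obtain ⟨k, rfl⟩ : ∃ k, m = k + 1 := ⟨m - 1, by omega⟩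
  -- older clocks
  have hcl : ∀ i ≤ k, ∀ s ∈ Icc 0 t, Th L R i s ≤ 2 ∧ (i = k → Th L R i s ≤ 1) := by
    intro i hi s hs
    have hmono := Th_mono h i hs.1 hs.2 ht.2
    rcases lt_trichotomy i (n + 1) with h1 | h1 | h1
    · exact ⟨hmono.trans (hH.old i (by omega)), fun h2 => by omega⟩
    · rw [h1] at hmono ⊢
      have h2 := hmono.trans hH.next
      exact ⟨by linarith, fun _ => h2⟩
    · have h2 := (ih i (by omega) (by omega) s hs).2
      have h3 : Real.exp (-(lm i / 4)) ≤ 1 := by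
        rw [Real.exp_le_one_iff]
        have h4 := h.nm.lm1 i
        have h5 : (0 : ℝ) ≤ lm i := le_trans (by norm_num) h4
        linarith
      have h6 := h2.trans h3
      exact ⟨by linarith, fun _ => h6⟩
  have hR : ∀ s ∈ Icc 0 t, R (k + 1 + 1) s ≤ Real.exp (-(lm (k + 1) / 2)) := by
    intro s hs
    have hs' : s ∈ Ico 0 T := ⟨hs.1, hs.2.trans_lt ht.2⟩
    have h1 : L 0 * s ≤ 3 * lm 0 := by
      have h2 := h.nm.L1 0
      have h3 := hH.time
      have h4 := hs.2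
      nlinarith
    refine (hU.2 k s hs' h1 fun i hi => (hcl i hi.le s hs).1).trans (Real.exp_le_exp.2 ?_)
    have h2 := (hcl k le_rfl s hs).2 rfl
    have h3 := h.nm.d1 (k + 1)
    have h4 := Real.pi_gt_d2
    have h5 := h.nm.lm1 (k + 1)
    have h6 : (0 : ℝ) ≤ lm (k + 1) := le_trans (by norm_num) h5
    have h7 : Th L R k s - Real.pi / 2 + dl η (k + 1) / 100 ≤ -(1 / 2) := by linarith
    have h8 := mul_le_mul_of_nonneg_left h7 h6
    linarith
  intro s hs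
  refine ⟨hR s hs, (Th_mono h (k + 1) hs.1 hs.2 ht.2).trans ?_⟩
  have hL1 := h.nm.L1 (k + 1)
  have h1 : Th L R (k + 1) t ≤ (L (k + 1) * Real.exp (-(lm (k + 1) / 2))) * t := by
    refine Pr_le (cont_LR h (k + 1) (k + 1 + 1)) ht fun τ hτ => ?_
    exact mul_le_mul_of_nonneg_left (hR τ ⟨hτ.1.le, hτ.2.le⟩) (by linarith)
  refine h1.trans ?_
  have hQ := h.nm.Q1 (k + 1)
  have hL := h.nm.QL (k + 1) (k + 1) (by omega)
  have hlm := h.nm.Qlm (k + 1) 0 (by omega)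
  have h8 := h.nm.Qexp (k + 1) 3 (-(1 / 2)) (-(1 / 4)) (by
      have := h.nm.d1 (k + 1)
      push_cast
      linarith)
  have e1 : -(lm (k + 1) / 2) = -(1 / 2) * lm (k + 1) := by ring
  have e2 : -(lm (k + 1) / 4) = -(1 / 4) * lm (k + 1) := by ring
  rw [e1, e2]
  refine le_trans ?_ h8
  obtain ⟨E, hE⟩ : ∃ E, E = Real.exp (-(1 / 2) * lm (k + 1)) := ⟨_, rfl⟩
  have hE0 : 0 < E := hE ▸ Real.exp_pos _
  rw [← hE]
  obtain ⟨q, hq⟩ : ∃ q, q = Q η lm (k + 1) := ⟨_, rfl⟩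
  rw [← hq] at hQ hL hlm ⊢
  have hq0 : 3 ≤ q := by
    refine le_trans ?_ hQ
    norm_num
  have ht3 := (t_le h ht hH.time).trans (mul_le_mul_of_nonneg_left hlm (by norm_num : (0 : ℝ) ≤ 3))
  calc L (k + 1) * E * t ≤ q * E * (3 * q) :=
        mul_le_mul (mul_le_mul_of_nonneg_right hL hE0.le) ht3 ht.1 (by positivity)
    _ = 3 * (q ^ 2 * E) := by ring
    _ ≤ q * (q ^ 2 * E) := mul_le_mul_of_nonneg_right hq0 (by positivity)
    _ = q ^ 3 * E := by ring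

end

theorem t_UPA : S_UPA := by
  intro η lm L C ℓ B T x R V h hG
  exact ⟨fun t ht h1 => upa1 h hG ht h1, fun n t ht h1 hold => upa2 h hG n ht h1 hold⟩

theorem t_FAR : S_FAR := by
  intro η lm L C ℓ B T x R V h hU n t ht hH m hm
  exact far h hU n ht hH m hm t ⟨ht.1, le_rfl⟩

end Pool.Agent.Y815.EJ
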